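import Pool.Agent.W27.BG.Good
import Pool.Agent.H471R4.BW.BGE
import Pool.Agent.H471R4.BW.BFM
import Pool.Agent.H471R4.BW.BIN
import Pool.Agent.H471R4.BW.MOM
import Pool.Agent.H471R4.BW.TUP
import Pool.Agent.H471R4.BW.VIN
import Pool.Agent.H471R4.BW.NU1
import Pool.Agent.H471R4.BW.NU2b
import Pool.Agent.H471R4.BW.SHF
import Pool.Agent.H471R4.BW.HOL
import Pool.Agent.H471R4.BW.SNG
import Pool.Agent.H471R4.BW.SMO
import Pool.Agent.H471R4.BW.Hch

set_option autoImplicit false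

/-!
Burgess' bound for the least integer at which a nonprincipal character modulo a prime is not one.
-/

namespace Pool.Agent.Y165.HN

open Pool.Agent.H471R4.BW

theorem sng_all : SNG := sng (bge (bfm (bin (mom tup) nu1 nu2b shf hol)) vin)

theorem fam_all (q : ℕ) [Fact q.Prime] (χ : DirichletCharacter ℂ q) (hχ : χ ≠ 1) :
    Fam 1 (fun r => 2 * (r : ℝ)) q χ := by
  intro r B hr hB
  rw [Real.rpow_one] at hB
  have hB' : B ≤ q := by exact_mod_cast hB
  have h := Pool.Agent.W27.BG.complete_all q χ hχ r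
  intro b c hb hc hu
  exact h b c (fun i => (hb i).trans_le hB') (fun i => (hc i).trans_le hB') hu

/-- Burgess -/
theorem burg (ε : ℝ) (hε : 0 < ε) : ∃ q0 : ℕ, ∀ q : ℕ, q0 ≤ q → q.Prime →
    ∀ χ : DirichletCharacter ℂ q, χ ≠ 1 → ∀ y : ℕ,
      (∀ l : ℕ, l.Prime → l ≤ y → χ (l : ZMod q) = 1) →
      (y : ℝ) ≤ (q : ℝ) ^ (1 / (4 * Real.exp (1 / 2)) + ε) := by
  obtain ⟨N0, h⟩ := sng_all ε 1 (fun r => 2 * (r : ℝ)) hε one_pos (fun r => by positivity)
  refine ⟨N0, fun q hq hp χ hχ y hy => ?_⟩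
  haveI : Fact q.Prime := ⟨hp⟩
  haveI : NeZero q := ⟨hp.ne_zero⟩
  exact h q hq χ (fam_all q χ hχ) y hy

end Pool.Agent.Y165.HN
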