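import Pool.Agent.Y165.HN.Key
import Pool.Agent.Y165.HN.Burg

set_option autoImplicit false

/-!
`h(n) = P(n)` if `P(n) > n ^ ε`, `ε > 1 / (4 √e)`.
-/

open Finset

namespace Pool.Agent.Y165.HN

open Pool.Agent.H17HN

theorem main_A (ε : ℝ) (hε : 1 / (4 * Real.exp (1 / 2)) < ε) :
    ∃ N : ℕ, ∀ n : ℕ, N ≤ n → (n : ℝ) ^ ε < PP n → gg n (PP n) = 1 := by
  set b : ℝ := 1 / (4 * Real.exp (1 / 2)) with hb
  have hexp : 1 < Real.exp (1 / 2) := Real.one_lt_exp_iff.mpr (by norm_num)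
  have hb0 : 0 < b := by positivity
  have hb1 : b < 1 := by
    rw [hb, div_lt_one (by positivity)]
    linarith
  set e := min ε 1 with he
  have heb : b < e := lt_min hε hb1
  have he0 : 0 < e := hb0.trans heb
  have he1 : e ≤ 1 := min_le_right _ _
  obtain ⟨K, N1, hK1, hkey⟩ := key e he0 he1
  set δ : ℝ := (e - b) / 2 with hδ
  have hδ0 : 0 < δ := by rw [hδ]; linarith
  obtain ⟨q0, hburg⟩ := burg δ hδ0
  obtain ⟨N2, hN2⟩ := large e he0 q0
  obtain ⟨N3, hN3⟩ := large δ hδ0 ((K : ℝ) ^ (b + δ))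
  refine ⟨max (max N1 N2) (max N3 1), fun n hn hP => ?_⟩
  have hn1 : N1 ≤ n := (le_max_left _ _).trans ((le_max_left _ _).trans hn)
  have hn2 : N2 ≤ n := (le_max_right _ _).trans ((le_max_left _ _).trans hn)
  have hn3 : N3 ≤ n := (le_max_left _ _).trans ((le_max_right _ _).trans hn)
  have hn4 : 1 ≤ n := (le_max_right _ _).trans ((le_max_right _ _).trans hn)
  have hn0 : (0 : ℝ) < n := by exact_mod_cast hn4
  have hn1' : (1 : ℝ) ≤ n := by exact_mod_cast hn4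
  by_contra hne
  have hP' : (n : ℝ) ^ e < PP n :=
    (Real.rpow_le_rpow_of_exponent_le hn1' (min_le_left _ _)).trans_lt hP
  obtain ⟨q, hq, hPq, hqK, -, χ, hχ, hall⟩ := hkey n hn1 hP' hne
  have hq0 : q0 ≤ q := by
    have h1 : (q0 : ℝ) < q := ((hN2 n hn2).trans_lt hP').trans (by exact_mod_cast hPq)
    exact_mod_cast h1.le
  have h1 := hburg q hq0 hq χ hχ (PP n) hall
  rw [← hb] at h1
  have h2 : (q : ℝ) ^ (b + δ) ≤ ((K : ℝ) * n) ^ (b + δ) := by
    refine Real.rpow_le_rpow (Nat.cast_nonneg _) ?_ (by positivity)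
    exact_mod_cast hqK
  rw [Real.mul_rpow (Nat.cast_nonneg _) hn0.le] at h2
  have h3 := hN3 n hn3
  have h4 : (K : ℝ) ^ (b + δ) * (n : ℝ) ^ (b + δ) ≤ (n : ℝ) ^ δ * (n : ℝ) ^ (b + δ) := by
    gcongr
  rw [← Real.rpow_add hn0] at h4
  have h5 : δ + (b + δ) = e := by rw [hδ]; ring
  rw [h5] at h4
  linarith

end Pool.Agent.Y165.HN
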