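import Mathlib

set_option autoImplicit false

/-!
Statements of the tasks of project HN (MP_53c6dc_nt, helper165).
-/

namespace Pool.Agent.Y165.HN

open Finset

/-- exceptional primes: some nonprincipal character is one at all primes up to `q ^ θ` -/
def Exc (θ : ℝ) (q : ℕ) : Prop :=
  q.Prime ∧ ∃ χ : DirichletCharacter ℂ q, χ ≠ 1 ∧
    ∀ l : ℕ, l.Prime → (l : ℝ) ≤ (q : ℝ) ^ θ → χ (l : ZMod q) = 1

/-- a positive proportion of the integers is smooth (PROVED in the pool) -/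
def SMO : Prop := ∀ κ : ℝ, 0 < κ → κ ≤ 1 → ∃ c : ℝ, 0 < c ∧ ∃ D0 : ℕ, ∀ D : ℕ, D0 ≤ D →
    ∃ S : Finset ℕ, (∀ s ∈ S, 1 ≤ s ∧ s < D ∧ ∀ l : ℕ, l.Prime → l ∣ s → (l : ℝ) ≤ (D : ℝ) ^ κ) ∧
      c * D ≤ S.card

/-- PER: incomplete sums of a product of two characters modulo different primes -/
def PER : Prop := ∀ (q q' : ℕ), q.Prime → q'.Prime → q ≠ q' → ∀ (χ : DirichletCharacter ℂ q)
  (ψ : DirichletCharacter ℂ q'), χ ≠ 1 → ∀ N : ℕ,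
    ‖∑ n ∈ range N, χ (n : ZMod q) * (starRingEnd ℂ) (ψ (n : ZMod q'))‖ ≤ (q : ℝ) * q'

/-- RARE: boundedly many exceptional primes in every dyadic interval -/
def RARE : Prop := ∀ θ : ℝ, 0 < θ → ∃ C : ℕ, ∀ (Q : ℕ) (E : Finset ℕ),
  (∀ q ∈ E, Exc θ q ∧ Q < q ∧ q ≤ 2 * Q) → E.card ≤ C

/-- COUNT: the multiples of the `(q - 1) / k`, `q` in a thin set -/
def COUNT : Prop := ∀ (η : ℝ) (C K : ℕ), 0 < η → η ≤ 1 → ∃ C' : ℝ, ∀ E : Set ℕ,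
  (∀ (Q : ℕ) (F : Finset ℕ), (∀ q ∈ F, q ∈ E ∧ Q < q ∧ q ≤ 2 * Q) → F.card ≤ C) →
  ∀ x : ℕ, 1 ≤ x → ∀ B : Finset ℕ,
    (∀ n ∈ B, 1 ≤ n ∧ n ≤ x ∧ ∃ q ∈ E, (x : ℝ) ^ η < q ∧ ∃ d k : ℕ, d ∣ n ∧ k ≤ K ∧ q = k * d + 1) →
    (B.card : ℝ) ≤ C' * (x : ℝ) ^ (1 - η)

end Pool.Agent.Y165.HN
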