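import Pool.Agent.Y165.HN.Key
import Pool.Agent.Y165.HN.Burg
import Pool.Agent.Y165.HN.Stm

set_option autoImplicit false

/-!
The integers `n` with `P(n) > n ^ ε` and `h(n) ≠ P(n)` are rare: power saving exceptional set, with
the exponent given by Burgess' bound.
-/

open Finset

namespace Pool.Agent.Y165.HN

open Pool.Agent.H17HN

theorem gg_of_hh {n : ℕ} (h2 : 2 ≤ PP n) (h : hh n = PP n) : gg n (PP n) = 1 := by
  have hne : {m : ℕ | 3 ≤ m ∧ gg n m = 1}.Nonempty := by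
    apply Nat.nonempty_of_pos_sInf
    have h1 : 0 < hh n := by omega
    exact h1
  have hmem := Nat.sInf_mem hne
  have h3 : sInf {m : ℕ | 3 ≤ m ∧ gg n m = 1} = PP n := h
  rw [h3] at hmem
  exact hmem.2

/-- the criterion -/
theorem main_C (ε : ℝ) (hε : 0 < ε) (hε1 : ε ≤ 1) : ∃ K N : ℕ, ∀ n : ℕ, N ≤ n →
    (n : ℝ) ^ ε < PP n →
    (hh n ≠ PP n ↔ ∃ q d k : ℕ, q.Prime ∧ PP n < q ∧ d ∣ n ∧ k ≤ K ∧ q = k * d + 1 ∧
      ∀ a : ℕ, 1 ≤ a → a ≤ PP n → (a : ZMod q) ^ d = 1) := by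
  obtain ⟨K, N1, hK1, hkey⟩ := key ε hε hε1
  obtain ⟨N2, hN2⟩ := large ε hε 3
  refine ⟨K, max (max N1 N2) 1, fun n hn hP => ?_⟩
  have hn1 : N1 ≤ n := (le_max_left _ _).trans ((le_max_left _ _).trans hn)
  have hn2 : N2 ≤ n := (le_max_right _ _).trans ((le_max_left _ _).trans hn)
  have hn3 : 1 ≤ n := (le_max_right _ _).trans hn
  have hP3 : 3 < PP n := by
    have : (3 : ℝ) < PP n := (hN2 n hn2).trans_lt hP
    exact_mod_cast this
  constructor
  · intro h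
    have hg : gg n (PP n) ≠ 1 := fun h1 => h (hh_eq_PP hn3 hP3.le h1)
    obtain ⟨q, hq, hPq, -, ⟨d, k, hd, hk, hqd, hall⟩, -⟩ := hkey n hn1 hP hg
    exact ⟨q, d, k, hq, hPq, hd, hk, hqd, hall⟩
  · rintro ⟨q, d, k, hq, hPq, hd, hk, hqd, hall⟩ h
    have hg := gg_of_hh (by omega) h
    haveI : Fact q.Prime := ⟨hq⟩
    have hdvd : q ∣ gg n (PP n) := by
      unfold gg
      rw [Finset.dvd_gcd_iff]
      intro i hi
      rw [Finset.mem_Icc] at hi
      obtain ⟨e, he⟩ := hd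
      have h1 : ((i : ℕ) : ZMod q) ^ n = 1 := by
        rw [he, pow_mul, hall i (by omega) hi.2, one_pow]
      rw [← ZMod.natCast_eq_zero_iff, Nat.cast_sub (Nat.one_le_pow _ _ (by omega))]
      push_cast
      rw [h1, sub_self]
    rw [hg] at hdvd
    exact hq.one_lt.ne' (Nat.dvd_one.mp hdvd)

open Classical in
/-- one dyadic block -/
theorem block (hR : RARE) (hC : COUNT) (ε η : ℝ) (hε : 0 < ε) (hε1 : ε ≤ 1) (hη0 : 0 < η)
    (hη1 : η ≤ 1) (hη : η / (4 * Real.exp (1 / 2)) < ε) :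
    ∃ C : ℝ, 0 ≤ C ∧ ∀ x : ℕ, 1 ≤ x →
      (((Ioc (x / 2) x).filter fun n : ℕ => (n : ℝ) ^ ε < PP n ∧ hh n ≠ PP n).card : ℝ) ≤
        C * (x : ℝ) ^ (1 - η) := by
  set b : ℝ := 1 / (4 * Real.exp (1 / 2)) with hb
  have hb0 : 0 < b := by positivity
  have hbη : η * b < ε := by
    have : η * b = η / (4 * Real.exp (1 / 2)) := by rw [hb]; ring
    rwa [this]
  obtain ⟨K, N1, hK1, hkey⟩ := key ε hε hε1
  obtain ⟨C0, hC1⟩ := hR (ε / 2) (by positivity)
  obtain ⟨C', hC2⟩ := hC η C0 K hη0 hη1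
  obtain ⟨N2, hN2⟩ := large ε hε 3
  -- `δ` with `η (b + δ) < ε`
  set δ : ℝ := (ε - η * b) / (2 * η) with hδ
  have hδ0 : 0 < δ := div_pos (by linarith) (by positivity)
  have hbd : η * (b + δ) = (ε + η * b) / 2 := by
    rw [hδ]
    field_simp
    ring
  set γ : ℝ := (ε - η * b) / 2 with hγ
  have hγ0 : 0 < γ := by rw [hγ]; linarith
  obtain ⟨q0, hburg⟩ := burg δ hδ0
  obtain ⟨N3, hN3⟩ := large ε hε q0
  obtain ⟨N4, hN4⟩ := large γ hγ0 ((2 : ℝ) ^ (η * (b + δ)))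
  set N := max (max (max N1 N2) (max N3 N4)) (max K 1) with hN
  refine ⟨max ((2 * N : ℕ) : ℝ) C', le_max_of_le_left (Nat.cast_nonneg _), fun x hx => ?_⟩
  have hx0 : (0 : ℝ) < x := by exact_mod_cast hx
  have hx1 : (1 : ℝ) ≤ x := by exact_mod_cast hx
  have hxa : (1 : ℝ) ≤ (x : ℝ) ^ (1 - η) := Real.one_le_rpow hx1 (by linarith)
  rcases Nat.lt_or_ge x (2 * N) with hxN | hxN
  · have h1 : (((Ioc (x / 2) x).filter
        fun n : ℕ => (n : ℝ) ^ ε < PP n ∧ hh n ≠ PP n).card : ℝ) ≤ ((2 * N : ℕ) : ℝ) := by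
      have h2 : ((Ioc (x / 2) x).filter
          fun n : ℕ => (n : ℝ) ^ ε < PP n ∧ hh n ≠ PP n).card ≤ x := by
        refine (card_filter_le _ _).trans ?_
        rw [Nat.card_Ioc]
        omega
      exact_mod_cast h2.trans hxN.le
    calc _ ≤ ((2 * N : ℕ) : ℝ) := h1
      _ ≤ max ((2 * N : ℕ) : ℝ) C' := le_max_left _ _
      _ ≤ max ((2 * N : ℕ) : ℝ) C' * (x : ℝ) ^ (1 - η) :=
          le_mul_of_one_le_right (le_max_of_le_left (Nat.cast_nonneg _)) hxa
  · have h := hC2 {q | Exc (ε / 2) q} (fun Q F hF => hC1 Q F hF) x hx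
      ((Ioc (x / 2) x).filter fun n : ℕ => (n : ℝ) ^ ε < PP n ∧ hh n ≠ PP n) ?_
    · refine h.trans ?_
      gcongr
      exact le_max_right _ _
    intro n hn
    rw [mem_filter, mem_Ioc] at hn
    obtain ⟨⟨h1, h2⟩, h5, h6⟩ := hn
    have hNn : N ≤ n := by omega
    have hn1 : N1 ≤ n :=
      ((le_max_left _ _).trans ((le_max_left _ _).trans (le_max_left _ _))).trans hNn
    have hn2 : N2 ≤ n :=
      ((le_max_right _ _).trans ((le_max_left _ _).trans (le_max_left _ _))).trans hNn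
    have hn3 : N3 ≤ n :=
      ((le_max_left _ _).trans ((le_max_right _ _).trans (le_max_left _ _))).trans hNn
    have hn4 : N4 ≤ n :=
      ((le_max_right _ _).trans ((le_max_right _ _).trans (le_max_left _ _))).trans hNn
    have hnK : K ≤ n := ((le_max_left _ _).trans (le_max_right _ _)).trans hNn
    have hnpos : 1 ≤ n := ((le_max_right _ _).trans (le_max_right _ _)).trans hNn
    have hn0 : (0 : ℝ) < n := by exact_mod_cast hnpos
    have hP3 : 3 < PP n := by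
      have : (3 : ℝ) < PP n := (hN2 n hn2).trans_lt h5
      exact_mod_cast this
    have hg : gg n (PP n) ≠ 1 := fun h7 => h6 (hh_eq_PP hnpos hP3.le h7)
    obtain ⟨q, hq, hPq, hqK, ⟨d, k, hd, hk, hqd, -⟩, χ, hχ, hall⟩ := hkey n hn1 h5 hg
    refine ⟨hnpos, h2, q, ⟨hq, χ, hχ, fun l hl hlq => hall l hl ?_⟩, ?_, d, k, hd, hk, hqd⟩
    · have h7 : (q : ℝ) ^ (ε / 2) ≤ (n : ℝ) ^ ε := by
        have h8 : (q : ℝ) ≤ (n : ℝ) ^ (2 : ℝ) := by
          rw [Real.rpow_two]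
          have h9 : q ≤ n ^ 2 := by
            rw [pow_two]
            exact hqK.trans (Nat.mul_le_mul_right n hnK)
          exact_mod_cast h9
        calc (q : ℝ) ^ (ε / 2) ≤ ((n : ℝ) ^ (2 : ℝ)) ^ (ε / 2) :=
              Real.rpow_le_rpow (Nat.cast_nonneg _) h8 (by positivity)
          _ = (n : ℝ) ^ ε := by
              rw [← Real.rpow_mul (Nat.cast_nonneg _)]
              congr 1
              ring
      have h10 : (l : ℝ) < PP n := (hlq.trans h7).trans_lt h5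
      exact_mod_cast h10.le
    · have hq0 : q0 ≤ q := by
        have h1 : (q0 : ℝ) < q := ((hN3 n hn3).trans_lt h5).trans (by exact_mod_cast hPq)
        exact_mod_cast h1.le
      have h7 := hburg q hq0 hq χ hχ (PP n) hall
      rw [← hb] at h7
      have h8 : (n : ℝ) ^ ε < (q : ℝ) ^ (b + δ) := h5.trans_le h7
      -- `x ^ (η (b + δ)) ≤ n ^ ε`
      have hx2 : (x : ℝ) ≤ 2 * n := by
        have : x ≤ 2 * n := by omega
        exact_mod_cast this
      have h9 : (x : ℝ) ^ (η * (b + δ)) ≤ (n : ℝ) ^ ε := by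
        have hpos : 0 < η * (b + δ) := by positivity
        calc (x : ℝ) ^ (η * (b + δ)) ≤ (2 * (n : ℝ)) ^ (η * (b + δ)) :=
              Real.rpow_le_rpow hx0.le hx2 hpos.le
          _ = 2 ^ (η * (b + δ)) * (n : ℝ) ^ (η * (b + δ)) :=
              Real.mul_rpow (by norm_num) hn0.le
          _ ≤ (n : ℝ) ^ γ * (n : ℝ) ^ (η * (b + δ)) := by
              gcongr
              exact hN4 n hn4
          _ = (n : ℝ) ^ ε := by
              rw [← Real.rpow_add hn0, hbd, hγ]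
              congr 1
              ring
      have h10 : ((x : ℝ) ^ η) ^ (b + δ) < (q : ℝ) ^ (b + δ) := by
        rw [← Real.rpow_mul hx0.le]
        exact h9.trans_lt h8
      exact (Real.rpow_lt_rpow_iff (by positivity) (Nat.cast_nonneg _) (by positivity)).1 h10

open Classical in
/-- the exceptional set -/
theorem main_D (hR : RARE) (hC : COUNT) (ε η : ℝ) (hε : 0 < ε) (hε1 : ε ≤ 1) (hη0 : 0 < η)
    (hη1 : η < 1) (hη : η / (4 * Real.exp (1 / 2)) < ε) :
    ∃ C : ℝ, ∀ x : ℕ,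
      (((Icc 1 x).filter fun n : ℕ => (n : ℝ) ^ ε < PP n ∧ hh n ≠ PP n).card : ℝ) ≤
        C * (x : ℝ) ^ (1 - η) := by
  obtain ⟨C, hC0, hblock⟩ := block hR hC ε η hε hε1 hη0 hη1.le hη
  set r : ℝ := (1 / 2 : ℝ) ^ (1 - η) with hr
  have hr0 : 0 < r := by positivity
  have hr1 : r < 1 := Real.rpow_lt_one (by norm_num) (by norm_num) (by linarith)
  refine ⟨C / (1 - r), fun x => ?_⟩
  induction x using Nat.strong_induction_on with
  | _ x ih =>
    rcases Nat.eq_zero_or_pos x with h0 | hx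
    · subst h0
      simp [Real.zero_rpow (by linarith : (1 - η : ℝ) ≠ 0)]
    · have hlt : x / 2 < x := Nat.div_lt_self hx (by norm_num)
      have h1 := ih (x / 2) hlt
      have h2 := hblock x hx
      have h3 : ((Icc 1 x).filter fun n : ℕ => (n : ℝ) ^ ε < PP n ∧ hh n ≠ PP n) ⊆
          ((Icc 1 (x / 2)).filter fun n : ℕ => (n : ℝ) ^ ε < PP n ∧ hh n ≠ PP n) ∪
          ((Ioc (x / 2) x).filter fun n : ℕ => (n : ℝ) ^ ε < PP n ∧ hh n ≠ PP n) := by
        intro n hn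
        rw [mem_filter, mem_Icc] at hn
        rw [mem_union, mem_filter, mem_filter, mem_Icc, mem_Ioc]
        by_cases h : n ≤ x / 2
        · exact Or.inl ⟨⟨hn.1.1, h⟩, hn.2⟩
        · exact Or.inr ⟨⟨not_le.1 h, hn.1.2⟩, hn.2⟩
      have h4 : ((((Icc 1 x).filter fun n : ℕ => (n : ℝ) ^ ε < PP n ∧ hh n ≠ PP n).card : ℕ) : ℝ) ≤
          ((((Icc 1 (x / 2)).filter fun n : ℕ => (n : ℝ) ^ ε < PP n ∧ hh n ≠ PP n).card : ℕ) : ℝ) +
          ((((Ioc (x / 2) x).filter fun n : ℕ => (n : ℝ) ^ ε < PP n ∧ hh n ≠ PP n).card : ℕ) : ℝ) := by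
        exact_mod_cast (card_le_card h3).trans (card_union_le _ _)
      have h5 : (((x / 2 : ℕ) : ℝ)) ^ (1 - η) ≤ r * (x : ℝ) ^ (1 - η) := by
        rw [hr, ← Real.mul_rpow (by norm_num) (Nat.cast_nonneg _)]
        refine Real.rpow_le_rpow (Nat.cast_nonneg _) ?_ (by linarith)
        have : ((x / 2 : ℕ) : ℝ) ≤ (x : ℝ) / 2 := Nat.cast_div_le
        linarith
      have h6 : 0 ≤ C / (1 - r) := div_nonneg hC0 (by linarith)
      calc _ ≤ C / (1 - r) * (((x / 2 : ℕ) : ℝ)) ^ (1 - η) + C * (x : ℝ) ^ (1 - η) := by linarith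
        _ ≤ C / (1 - r) * (r * (x : ℝ) ^ (1 - η)) + C * (x : ℝ) ^ (1 - η) := by gcongr
        _ = C / (1 - r) * (x : ℝ) ^ (1 - η) := by
            have : 1 - r ≠ 0 := by linarith
            field_simp
            ring

end Pool.Agent.Y165.HN
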