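import Pool.Agent.H17HN.Gcd
import Pool.Agent.H471R4.BW.SMO
import Pool.Agent.H471R4.BW.Hch

set_option autoImplicit false

/-!
The primes dividing all `a ^ n - 1`, `a ≤ P(n)`, if `P(n) > n ^ ε`.
-/

open Finset

namespace Pool.Agent.Y165.HN

open Pool.Agent.H17HN

theorem card_roots {q d : ℕ} (hq : q.Prime) (hd : 1 ≤ d) (S : Finset ℕ)
    (hS : ∀ s ∈ S, s < q ∧ ((s : ℕ) : ZMod q) ^ d = 1) : S.card ≤ d := by
  have := Fact.mk hq
  have h1 : S.card ≤ (Polynomial.nthRootsFinset d (1 : ZMod q)).card := by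
    refine Finset.card_le_card_of_injOn (fun m => ((m : ℕ) : ZMod q)) ?_ ?_
    · intro m hm
      rw [Finset.mem_coe] at hm
      rw [Finset.mem_coe, Polynomial.mem_nthRootsFinset hd]
      exact (hS m hm).2
    · intro a ha b hb hab
      rw [Finset.mem_coe] at ha hb
      have h := (ZMod.natCast_eq_natCast_iff' a b q).mp hab
      rwa [Nat.mod_eq_of_lt (hS a ha).1, Nat.mod_eq_of_lt (hS b hb).1] at h
  refine le_trans h1 ?_
  rw [Polynomial.nthRootsFinset_def]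
  exact le_trans (Multiset.toFinset_card_le _) (Polynomial.card_nthRoots d 1)

theorem large (ε : ℝ) (hε : 0 < ε) (M : ℝ) : ∃ n0 : ℕ, ∀ n : ℕ, n0 ≤ n → M ≤ (n : ℝ) ^ ε := by
  have t1 : Filter.Tendsto (fun n : ℕ => (n : ℝ) ^ ε) Filter.atTop Filter.atTop :=
    (tendsto_rpow_atTop hε).comp tendsto_natCast_atTop_atTop
  obtain ⟨n0, hn0⟩ := Filter.eventually_atTop.1 (t1.eventually_ge_atTop M)
  exact ⟨n0, hn0⟩

/-- the structure of the bad primes -/
theorem key (ε : ℝ) (hε : 0 < ε) (hε1 : ε ≤ 1) : ∃ (K : ℕ) (N : ℕ), 1 ≤ K ∧ ∀ n : ℕ, N ≤ n →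
    (n : ℝ) ^ ε < PP n → gg n (PP n) ≠ 1 →
    ∃ q : ℕ, q.Prime ∧ PP n < q ∧ q ≤ K * n ∧
      (∃ d k : ℕ, d ∣ n ∧ k ≤ K ∧ q = k * d + 1 ∧
        ∀ a : ℕ, 1 ≤ a → a ≤ PP n → (a : ZMod q) ^ d = 1) ∧
      ∃ χ : DirichletCharacter ℂ q, χ ≠ 1 ∧
        ∀ l : ℕ, l.Prime → l ≤ PP n → χ (l : ZMod q) = 1 := by
  obtain ⟨c, hc, D0, hS⟩ := Pool.Agent.H471R4.BW.smo (ε / 2) (by positivity) (by linarith)
  obtain ⟨N1, hN1⟩ := large ε hε (max D0 3)
  obtain ⟨N2, hN2⟩ := exists_nat_gt (1 / c)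
  obtain ⟨K, hK⟩ := exists_nat_ge (1 / c)
  refine ⟨K + 1, max (max N1 (N2 + 1)) (max D0 1), Nat.succ_pos K, fun n hn hP hne => ?_⟩
  have hn1 : N1 ≤ n := (le_max_left _ _).trans ((le_max_left _ _).trans hn)
  have hn2 : N2 + 1 ≤ n := (le_max_right _ _).trans ((le_max_left _ _).trans hn)
  have hn3 : D0 ≤ n := (le_max_left _ _).trans ((le_max_right _ _).trans hn)
  have hn4 : 1 ≤ n := (le_max_right _ _).trans ((le_max_right _ _).trans hn)
  have hbig := hN1 n hn1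
  have hPD : (D0 : ℝ) < PP n := ((le_max_left _ _).trans hbig).trans_lt hP
  have hP3 : (3 : ℝ) < PP n := ((le_max_right _ _).trans hbig).trans_lt hP
  have hP3' : 3 < PP n := by exact_mod_cast hP3
  have hPD' : D0 < PP n := by exact_mod_cast hPD
  obtain ⟨q, hq, hPq, hall⟩ := exists_prime_of_gg_ne_one (by omega) hn4 hne
  haveI : Fact q.Prime := ⟨hq⟩
  set d := Nat.gcd n (q - 1) with hd
  have hq1 : 0 < q - 1 := by have := hq.one_lt; omega
  have hd1 : 1 ≤ d := Nat.gcd_pos_of_pos_left _ hn4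
  have hdn : d ∣ n := Nat.gcd_dvd_left _ _
  have hdq : d ∣ q - 1 := Nat.gcd_dvd_right _ _
  have hdle : d ≤ n := Nat.le_of_dvd hn4 hdn
  have hdlt : d < q - 1 := by
    rcases lt_or_eq_of_le (Nat.le_of_dvd hq1 hdq) with h | h
    · exact h
    · exfalso
      have h2 : (q - 1) ∣ n := by rw [← h]; exact hdn
      have := le_PP hn4 hq h2
      omega
  have hpow : ∀ z : ZMod q, z ≠ 0 → z ^ n = 1 → z ^ d = 1 := by
    intro z hz hzn
    have h1 : z ^ (q - 1) = 1 := ZMod.pow_card_sub_one_eq_one hz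
    rw [hd]
    exact pow_gcd_eq_one.mpr ⟨hzn, h1⟩
  have hne0 : ∀ a : ℕ, ((a : ℕ) : ZMod q) ^ n = 1 → ((a : ℕ) : ZMod q) ≠ 0 := by
    intro a ha h0
    rw [h0, zero_pow (by omega)] at ha
    exact zero_ne_one ha
  -- the smooth integers
  set D := min q (n ^ 2) with hD
  have hDD0 : D0 ≤ D := by
    rw [hD]
    refine le_min (by omega) ?_
    nlinarith
  obtain ⟨S, hS1, hS2⟩ := hS D hDD0
  have hDn : ((D : ℕ) : ℝ) ^ (ε / 2) ≤ (n : ℝ) ^ ε := by
    have h1 : ((D : ℕ) : ℝ) ≤ (n : ℝ) ^ (2 : ℝ) := by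
      have : D ≤ n ^ 2 := min_le_right _ _
      have h2 : ((D : ℕ) : ℝ) ≤ ((n ^ 2 : ℕ) : ℝ) := by exact_mod_cast this
      rw [Real.rpow_two]
      push_cast at h2
      exact h2
    calc ((D : ℕ) : ℝ) ^ (ε / 2) ≤ ((n : ℝ) ^ (2 : ℝ)) ^ (ε / 2) :=
          Real.rpow_le_rpow (Nat.cast_nonneg _) h1 (by positivity)
      _ = (n : ℝ) ^ ε := by
          rw [← Real.rpow_mul (Nat.cast_nonneg _)]
          congr 1
          ring
  have hScard : S.card ≤ d := by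
    refine card_roots hq hd1 S fun s hs => ?_
    obtain ⟨h1, h2, h3⟩ := hS1 s hs
    refine ⟨lt_of_lt_of_le h2 (min_le_left _ _), ?_⟩
    have h4 : ((s : ℕ) : ZMod q) ^ n = 1 := by
      refine smooth_root hall s h1 fun p hp hps => ?_
      have h5 : (p : ℝ) < PP n := ((h3 p hp hps).trans hDn).trans_lt hP
      exact_mod_cast h5.le
    exact hpow _ (hne0 s h4) h4
  have hcD : c * D ≤ d := hS2.trans (by exact_mod_cast hScard)
  have hn0 : (0 : ℝ) < n := by exact_mod_cast hn4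
  have hcn : 1 < c * n := by
    have h1 : (N2 : ℝ) < n := by exact_mod_cast (by omega : N2 < n)
    have h2 := hN2.trans h1
    rw [div_lt_iff₀ hc] at h2
    linarith
  have hqn2 : q < n ^ 2 := by
    by_contra hcon
    rw [not_lt] at hcon
    have h1 : D = n ^ 2 := min_eq_right hcon
    rw [h1] at hcD
    push_cast at hcD
    have h2 : (d : ℝ) ≤ n := by exact_mod_cast hdle
    nlinarith
  have hDq : D = q := min_eq_left hqn2.le
  rw [hDq] at hcD
  have hKc : 1 ≤ c * K := by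
    rw [div_le_iff₀ hc] at hK
    linarith
  have hqK : q ≤ K * d := by
    have h1 : (q : ℝ) ≤ K * d := by
      have hq0 : (0 : ℝ) ≤ q := Nat.cast_nonneg _
      have hK0 : (0 : ℝ) ≤ K := Nat.cast_nonneg _
      calc (q : ℝ) ≤ (c * K) * q := by nlinarith
        _ = K * (c * q) := by ring
        _ ≤ K * d := by gcongr
    exact_mod_cast h1
  obtain ⟨k, hk⟩ := hdq
  refine ⟨q, hq, hPq, ?_, ⟨d, k, hdn, ?_, ?_, fun a h1 h2 => hpow _ (hne0 a (hall a h1 h2)) (hall a h1 h2)⟩, ?_⟩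
  · calc q ≤ K * d := hqK
      _ ≤ (K + 1) * n := Nat.mul_le_mul (Nat.le_succ K) hdle
  · have h1 : d * k < d * (K + 1) := by
      have : q - 1 < K * d + 1 := by omega
      rw [hk] at this
      nlinarith
    have := Nat.lt_of_mul_lt_mul_left h1
    omega
  · rw [mul_comm k d, ← hk]; omega
  · obtain ⟨t, -, -, χ, hχ1, -, hχ⟩ := Pool.Agent.H471R4.BW.hch q d ⟨k, hk⟩ hdlt
    refine ⟨χ, hχ1, fun l hl hlP => ?_⟩
    have h4 := hall l hl.one_lt.le hlP
    exact hχ _ (hpow _ (hne0 l h4) h4)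

end Pool.Agent.Y165.HN
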